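import Pool.Agent.H125e.SF4

/-! # MP_e2feb3_nt: the third-order gaps of the down- and up-integers -/

namespace Pool.Agent.Results.MP_e2feb3_nt.ThirdOrderGaps

open Pool.Agent.H125e.SF

/-- `D₃ = U₃ = {3,4,5,6,7,8,10,11,13}`. -/
theorem result : gaps {n | IsDown n} 3 = {3, 4, 5, 6, 7, 8, 10, 11, 13} ∧
    gaps {n | IsUp n} 3 = {3, 4, 5, 6, 7, 8, 10, 11, 13} := ⟨gaps_D, gaps_U⟩

end Pool.Agent.Results.MP_e2feb3_nt.ThirdOrderGaps
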